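import Pool.Agent.R550.GB.Graph
import Pool.Agent.H557R2.FptDefs

/-!
# `T_{h+1}`-Free Edge Deletion
-/

namespace Pool.Agent.R550.TE

open Pool.Agent.NPC Pool.Agent.H557R2.Fpt

/-- `T_{h+1}`-Free Edge Deletion, parameterized by the number `k` of the deleted edges.

An instance `(y, k)` of the parameterized problem is a yes-instance if `y` is the code of a pair
`(A, h)`, where `A` is a list of adjacency lists (giving the graph `GB.graph A`) and `h` is a
positive integer, `k` is positive, and there is a set `F` of at most `k` edges of the graph such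
that all connected components of the graph without the edges in `F` have at most `h` vertices. -/
def treeFreeEdgeDeletion : PProblem :=
  {y | ∃ (A : List (List ℕ)) (h : ℕ), 1 ≤ h ∧ 1 ≤ y.2 ∧ y.1 = bits (A, h) ∧
    ∃ F : Finset (Sym2 (Fin A.length)), (F : Set (Sym2 (Fin A.length))) ⊆ (GB.graph A).edgeSet ∧
      F.card ≤ y.2 ∧
        ∀ C : ((GB.graph A).deleteEdges F).ConnectedComponent, C.supp.ncard ≤ h}

end Pool.Agent.R550.TE
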