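import Pool.Agent.R550.TE.Main
import Pool.Agent.R550.DS.Main

/-!
# The torus of hubs and links
-/

namespace Pool.Agent.R550.TE

open Finset

/-- the next row or column -/
def up (k j : ℕ) : ℕ := if j + 1 = k then 0 else j + 1

/-- the previous row or column -/
def dn (k j : ℕ) : ℕ := if j = 0 then k - 1 else j - 1

theorem up_lt {k j : ℕ} (h : j < k) : up k j < k := by unfold up; split_ifs <;> omega

theorem dn_lt {k j : ℕ} (h : j < k) : dn k j < k := by unfold dn; split_ifs <;> omega

theorem up_dn {k j : ℕ} (h : j < k) : up k (dn k j) = j := by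
  unfold up dn
  by_cases h0 : j = 0
  · rw [if_pos h0, if_pos (by omega)]
    omega
  · rw [if_neg h0, if_neg (by omega)]
    omega

theorem dn_up {k j : ℕ} (h : j < k) : dn k (up k j) = j := by
  unfold up dn
  by_cases h0 : j + 1 = k
  · rw [if_pos h0, if_pos rfl]
    omega
  · rw [if_neg h0, if_neg (by omega)]
    omega

theorem up_eq_iff {k i j : ℕ} (hi : i < k) (hj : j < k) : up k i = j ↔ i = dn k j := by
  constructor
  · rintro rfl
    exact (dn_up hi).symm
  · rintro rfl
    exact up_dn hj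

theorem sum_dn (k : ℕ) (f : ℕ → ℕ) : ∑ j ∈ range k, f (dn k j) = ∑ j ∈ range k, f j := by
  refine Finset.sum_nbij' (dn k) (up k) ?_ ?_ ?_ ?_ ?_
  · intro j hj
    exact mem_range.2 (dn_lt (mem_range.1 hj))
  · intro j hj
    exact mem_range.2 (up_lt (mem_range.1 hj))
  · intro j hj
    exact up_dn (mem_range.1 hj)
  · intro j hj
    exact dn_up (mem_range.1 hj)
  · intro j _
    rfl

theorem sum_pt {k i j : ℕ} (hi : i < k) (hj : j < k) (P : ℕ → ℕ → Prop)
    [∀ a b, Decidable (P a b)] (g : ℕ → ℕ → ℕ)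
    (hP : ∀ a < k, ∀ b < k, P a b ↔ a = i ∧ b = j) :
    ∑ a ∈ range k, ∑ b ∈ range k, (if P a b then g a b else 0) = g i j := by
  rw [Finset.sum_eq_single_of_mem i (mem_range.2 hi), Finset.sum_eq_single_of_mem j (mem_range.2 hj),
    if_pos ((hP i hi j hj).2 ⟨rfl, rfl⟩)]
  · intro b hb hne
    rw [if_neg fun h => hne ((hP i hi b (mem_range.1 hb)).1 h).2]
  · intro a ha hne
    refine Finset.sum_eq_zero fun b hb => ?_
    rw [if_neg fun h => hne ((hP a (mem_range.1 ha) b (mem_range.1 hb)).1 h).1]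

theorem sum_none {k : ℕ} (P : ℕ → ℕ → Prop)
    [∀ a b, Decidable (P a b)] (g : ℕ → ℕ → ℕ)
    (hP : ∀ a b, ¬ P a b) :
    ∑ a ∈ range k, ∑ b ∈ range k, (if P a b then g a b else 0) = 0 := by
  refine Finset.sum_eq_zero fun a _ => Finset.sum_eq_zero fun b _ => ?_
  rw [if_neg (hP a b)]

namespace Shape

variable {E : Type} [DecidableEq E] {S : Shape E}

theorem load_eq {q : E → ℕ} (hq : ∀ e ∈ S.Ls, q e ≤ S.len e) (x : E) :
    S.load q x = S.sz x 0 + ∑ e ∈ S.Ls,
      ((if S.src e = x then ∑ t ∈ range (q e), S.sz e t else 0) +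
        (if S.dst e = x then ∑ t ∈ Ico (q e) (S.len e), S.sz e t else 0)) := by
  unfold load
  congr 1
  refine Finset.sum_congr rfl fun e he => ?_
  have h1 := hq e he
  have h2 := S.ne e he
  by_cases h3 : S.src e = x
  · have h4 : S.dst e ≠ x := fun h => h2 (h3.trans h.symm)
    rw [if_pos h3, if_neg h4, add_zero]
    refine Finset.sum_congr ?_ fun _ _ => rfl
    ext t
    simp only [mem_filter, mem_range]
    constructor
    · rintro ⟨-, h5⟩
      by_contra h6
      rw [if_neg h6] at h5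
      exact h4 h5
    · intro h5
      rw [if_pos h5]
      exact ⟨by omega, h3⟩
  · rw [if_neg h3, zero_add]
    by_cases h4 : S.dst e = x
    · rw [if_pos h4]
      refine Finset.sum_congr ?_ fun _ _ => rfl
      ext t
      simp only [mem_filter, mem_range, mem_Ico]
      constructor
      · rintro ⟨h5, h6⟩
        refine ⟨?_, h5⟩
        by_contra h7
        rw [if_pos (by omega)] at h6
        exact h3 h6
      · rintro ⟨h5, h6⟩
        rw [if_neg (by omega)]
        exact ⟨h6, h4⟩
    · rw [if_neg h4]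
      refine Finset.sum_eq_zero fun t ht => ?_
      exfalso
      obtain ⟨-, h5⟩ := mem_filter.1 ht
      split_ifs at h5
      · exact h3 h5
      · exact h4 h5

end Shape

/-- A hub or a link is given by its kind and its cell. -/
abbrev El : Type := ℕ × ℕ × ℕ

/-- the largest possible code -/
def mx (n : ℕ) : ℕ := (n + 1) * (n + 3)

/-- Is `c` the code of an allowed pair? -/
def ok (n : ℕ) (x : List Bool) (i j c : ℕ) : Bool :=
  decide (c = mx n + 1) || (decide (c % (n + 2) < n) && decide (c / (n + 2) < n) &&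
    DS.alw n x i j (c % (n + 2)) (c / (n + 2)))

/-- the total sizes of the beginnings of a cell link -/
def F (n : ℕ) (x : List Bool) (i j t : ℕ) : ℕ :=
  if t = 0 then 0 else 3 * (t - 1) + (if ok n x i j (t - 1) then 1 else 2)

/-- the number of the links -/
def Kk (k : ℕ) : ℕ := 3 * (k * k)

/-- the size of a hub of kind 3 -/
def zP (n k : ℕ) : ℕ := 3 * (mx n + 1) + Kk k + 1

/-- the size of a hub of kind 4 -/
def zQ (n k : ℕ) : ℕ := 3 * mx n + 1 + Kk k + 1

/-- the bound for the sizes of the components -/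
def hh (n k : ℕ) : ℕ := 3 * mx n + 1 + 3 * (mx n + 1) + Kk k + 1

/-- the lengths of the links -/
def len (n : ℕ) (e : El) : ℕ := if e.1 = 0 then mx n + 2 else if e.1 ≤ 2 then n + 1 else 1

/-- the sizes of the stars -/
def sz (n k : ℕ) (x : List Bool) (e : El) (t : ℕ) : ℕ :=
  if e.1 = 0 then F n x e.2.1 e.2.2 (t + 1) - F n x e.2.1 e.2.2 t
  else if e.1 = 1 then 3 else if e.1 = 2 then 3 * (n + 2) else if e.1 = 3 then zP n k else zQ n k

/-- the start of a link -/
def src (e : El) : El := (3, e.2.1, e.2.2)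

/-- the end of a link -/
def dst (k : ℕ) (e : El) : El :=
  if e.1 = 0 then (4, e.2.1, e.2.2) else if e.1 = 1 then (4, e.2.1, up k e.2.2)
  else (4, up k e.2.1, e.2.2)

theorem F_lt (n : ℕ) (x : List Bool) (i j t : ℕ) : F n x i j t < F n x i j (t + 1) := by
  unfold F
  rw [if_neg (show ¬ t + 1 = 0 by omega), Nat.add_sub_cancel]
  by_cases h0 : t = 0
  · rw [if_pos h0]
    split_ifs <;> omega
  · rw [if_neg h0]
    split_ifs <;> omega

/-- the hubs -/
def HS (k : ℕ) : Finset El := Ico 3 5 ×ˢ (range k ×ˢ range k)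

/-- the links -/
def LS (k : ℕ) : Finset El := range 3 ×ˢ (range k ×ˢ range k)

theorem mem_HS {k : ℕ} {e : El} : e ∈ HS k ↔ 3 ≤ e.1 ∧ e.1 < 5 ∧ e.2.1 < k ∧ e.2.2 < k := by
  unfold HS
  rw [mem_product, mem_product, mem_Ico, mem_range, mem_range, and_assoc]

theorem mem_LS {k : ℕ} {e : El} : e ∈ LS k ↔ e.1 < 3 ∧ e.2.1 < k ∧ e.2.2 < k := by
  unfold LS
  rw [mem_product, mem_product, mem_range, mem_range, mem_range]

/-- The shape of the torus. -/
def shape (n k : ℕ) (x : List Bool) : Shape El where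
  Hs := HS k
  Ls := LS k
  src := src
  dst := dst k
  len := len n
  sz := sz n k x
  not_hub e h h' := by
    rw [mem_LS] at h
    rw [mem_HS] at h'
    omega
  src_mem e h := by
    rw [mem_LS] at h
    rw [mem_HS]
    exact ⟨le_rfl, by simp [src], h.2.1, h.2.2⟩
  dst_mem e h := by
    rw [mem_LS] at h
    rw [mem_HS]
    have h1 := up_lt h.2.1
    have h2 := up_lt h.2.2
    unfold dst
    split_ifs <;> simp only <;> omega
  ne e h := by
    unfold src dst
    split_ifs <;> simp
  len_hub e h := by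
    rw [mem_HS] at h
    unfold len
    rw [if_neg (by omega), if_neg (by omega)]
  len_pos e h := by
    unfold len
    split_ifs <;> omega
  sz_pos e h t ht := by
    unfold sz zP zQ
    have := F_lt n x e.2.1 e.2.2 t
    split_ifs <;> omega

theorem card_LS (k : ℕ) : (LS k).card = Kk k := by
  unfold LS Kk
  rw [card_product, card_product, card_range, card_range]

theorem sum_F (n : ℕ) (x : List Bool) (i j q : ℕ) :
    ∑ t ∈ range q, (F n x i j (t + 1) - F n x i j t) = F n x i j q := by
  rw [Finset.sum_range_tsub (monotone_nat_of_le_succ fun t => (F_lt n x i j t).le)]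
  simp [F]

theorem F_top (n : ℕ) (x : List Bool) (i j : ℕ) : F n x i j (mx n + 2) = 3 * (mx n + 1) + 1 := by
  unfold F ok
  simp

/-- The total size of the beginning of a link. -/
theorem sum_sz {n k : ℕ} {x : List Bool} (e : El) (q : ℕ) (he : e.1 < 3) :
    ∑ t ∈ range q, sz n k x e t = if e.1 = 0 then F n x e.2.1 e.2.2 q else
      if e.1 = 1 then q * 3 else q * (3 * (n + 2)) := by
  unfold sz
  split_ifs
  · exact sum_F _ _ _ _ _
  · rw [sum_const, card_range, smul_eq_mul]
  · rw [sum_const, card_range, smul_eq_mul]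
  · omega
  · omega

theorem sum_sz' {n k : ℕ} {x : List Bool} (e : El) (q : ℕ) (hq : q ≤ len n e) :
    ∑ t ∈ range q, sz n k x e t + ∑ t ∈ Ico q (len n e), sz n k x e t =
      ∑ t ∈ range (len n e), sz n k x e t := by
  rw [Finset.sum_range_add_sum_Ico _ hq]

/-- The load of a hub of kind 3. -/
theorem load_P {n k : ℕ} {x : List Bool} {q : El → ℕ} (hq : ∀ e ∈ LS k, q e ≤ len n e) {i j : ℕ}
    (hi : i < k) (hj : j < k) : (shape n k x).load q (3, i, j) = zP n k +
      (F n x i j (q (0, i, j)) + q (1, i, j) * 3 + q (2, i, j) * (3 * (n + 2))) := by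
  rw [Shape.load_eq hq]
  have h1 : ∀ e : El, ¬ (dst k e = (3, i, j)) := by
    intro e
    unfold dst
    split_ifs <;> simp
  have h2 : ∀ e ∈ LS k, ((if src e = (3, i, j) then ∑ t ∈ range (q e), sz n k x e t else 0) +
        (if dst k e = (3, i, j) then ∑ t ∈ Ico (q e) (len n e), sz n k x e t else 0)) =
        (if src e = (3, i, j) then ∑ t ∈ range (q e), sz n k x e t else 0) := by
    intro e _
    rw [if_neg (h1 e), add_zero]
  have h3 : (shape n k x).sz (3, i, j) 0 = zP n k := rfl
  rw [h3]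
  congr 1
  show ∑ e ∈ LS k, ((if src e = (3, i, j) then ∑ t ∈ range (q e), sz n k x e t else 0) +
        (if dst k e = (3, i, j) then ∑ t ∈ Ico (q e) (len n e), sz n k x e t else 0)) = _
  rw [Finset.sum_congr rfl h2]
  unfold LS
  have h4 : ∀ c < 3, ∑ y ∈ range k ×ˢ range k, (if src (c, y) = (3, i, j) then
      ∑ t ∈ range (q (c, y)), sz n k x (c, y) t else 0) =
      ∑ t ∈ range (q (c, i, j)), sz n k x (c, i, j) t := by
    intro c _
    rw [Finset.sum_product]
    exact sum_pt hi hj (fun a b => src (c, a, b) = (3, i, j))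
      (fun a b => ∑ t ∈ range (q (c, a, b)), sz n k x (c, a, b) t) (fun a _ b _ => by simp [src])
  rw [Finset.sum_product, sum_range_succ, sum_range_succ, sum_range_succ, sum_range_zero,
    h4 0 (by norm_num), h4 1 (by norm_num), h4 2 (by norm_num), zero_add,
    sum_sz _ _ (by norm_num), sum_sz _ _ (by norm_num), sum_sz _ _ (by norm_num)]
  simp

/-- The load of a hub of kind 4. -/
theorem load_Q {n k : ℕ} {x : List Bool} {q : El → ℕ} (hq : ∀ e ∈ LS k, q e ≤ len n e) {i j : ℕ}
    (hi : i < k) (hj : j < k) : (shape n k x).load q (4, i, j) +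
      (F n x i j (q (0, i, j)) + q (1, i, dn k j) * 3 + q (2, dn k i, j) * (3 * (n + 2))) =
      zQ n k + (3 * (mx n + 1) + 1 + 3 * mx n) := by
  rw [Shape.load_eq hq]
  have h1 : ∀ e : El, ¬ (src e = (4, i, j)) := by
    intro e
    simp [src]
  have h2 : ∀ e ∈ LS k, ((if src e = (4, i, j) then ∑ t ∈ range (q e), sz n k x e t else 0) +
        (if dst k e = (4, i, j) then ∑ t ∈ Ico (q e) (len n e), sz n k x e t else 0)) =
        (if dst k e = (4, i, j) then ∑ t ∈ Ico (q e) (len n e), sz n k x e t else 0) := by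
    intro e _
    rw [if_neg (h1 e), zero_add]
  have h3 : (shape n k x).sz (4, i, j) 0 = zQ n k := rfl
  rw [h3, add_assoc]
  congr 1
  have h5 : ∑ e ∈ LS k, ((if src e = (4, i, j) then ∑ t ∈ range (q e), sz n k x e t else 0) +
        (if dst k e = (4, i, j) then ∑ t ∈ Ico (q e) (len n e), sz n k x e t else 0)) =
      ∑ t ∈ Ico (q (0, i, j)) (len n (0, i, j)), sz n k x (0, i, j) t +
      ∑ t ∈ Ico (q (1, i, dn k j)) (len n (1, i, dn k j)), sz n k x (1, i, dn k j) t +
      ∑ t ∈ Ico (q (2, dn k i, j)) (len n (2, dn k i, j)), sz n k x (2, dn k i, j) t := by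
    rw [Finset.sum_congr rfl h2]
    unfold LS
    rw [Finset.sum_product, sum_range_succ, sum_range_succ, sum_range_succ, sum_range_zero,
      zero_add, Finset.sum_product, Finset.sum_product, Finset.sum_product]
    congr 1
    · congr 1
      · exact sum_pt hi hj (fun a b => dst k (0, a, b) = (4, i, j))
          (fun a b => ∑ t ∈ Ico (q (0, a, b)) (len n (0, a, b)), sz n k x (0, a, b) t)
          (fun a _ b _ => by simp [dst])
      · exact sum_pt hi (dn_lt hj) (fun a b => dst k (1, a, b) = (4, i, j))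
          (fun a b => ∑ t ∈ Ico (q (1, a, b)) (len n (1, a, b)), sz n k x (1, a, b) t)
          (fun a _ b hb => by simp [dst, up_eq_iff hb hj])
    · exact sum_pt (dn_lt hi) hj (fun a b => dst k (2, a, b) = (4, i, j))
        (fun a b => ∑ t ∈ Ico (q (2, a, b)) (len n (2, a, b)), sz n k x (2, a, b) t)
        (fun a ha b _ => by simp [dst, up_eq_iff ha hi])
  have h6 : ∑ e ∈ (shape n k x).Ls, ((if (shape n k x).src e = (4, i, j) then
      ∑ t ∈ range (q e), (shape n k x).sz e t else 0) + (if (shape n k x).dst e = (4, i, j) then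
        ∑ t ∈ Ico (q e) ((shape n k x).len e), (shape n k x).sz e t else 0)) = _ := h5
  rw [h6]
  have m0 : ((0, i, j) : El) ∈ LS k := mem_LS.2 ⟨by norm_num, hi, hj⟩
  have m1 : ((1, i, dn k j) : El) ∈ LS k := mem_LS.2 ⟨by norm_num, hi, dn_lt hj⟩
  have m2 : ((2, dn k i, j) : El) ∈ LS k := mem_LS.2 ⟨by norm_num, dn_lt hi, hj⟩
  have e0 := sum_sz' (n := n) (k := k) (x := x) (0, i, j) _ (hq _ m0)
  have e1 := sum_sz' (n := n) (k := k) (x := x) (1, i, dn k j) _ (hq _ m1)
  have e2 := sum_sz' (n := n) (k := k) (x := x) (2, dn k i, j) _ (hq _ m2)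
  rw [sum_sz _ _ (by norm_num), sum_sz _ _ (by norm_num)] at e0 e1 e2
  have l0 : len n (0, i, j) = mx n + 2 := rfl
  have l1 : len n (1, i, dn k j) = n + 1 := rfl
  have l2 : len n (2, dn k i, j) = n + 1 := rfl
  rw [l0] at e0 ⊢
  rw [l1] at e1 ⊢
  rw [l2] at e2 ⊢
  simp only [if_true, F_top, one_ne_zero, if_false, OfNat.ofNat_ne_zero, OfNat.ofNat_ne_one] at e0 e1 e2
  have h7 : (n + 1) * 3 + (n + 1) * (3 * (n + 2)) = 3 * mx n := by
    unfold mx
    ring
  omega

/-- **From cliques to cuts.** -/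
theorem cut_of_clique {n k : ℕ} {x : List Bool} {f : ℕ → ℕ} (hf : ∀ i < k, f i < n)
    (hal : ∀ i < k, ∀ j < k, DS.alw n x i j (f i) (f j) = true) :
    ∃ q : El → ℕ, (∀ e ∈ LS k, q e ≤ len n e) ∧
      ∀ y ∈ HS k, (shape n k x).load q y ≤ hh n k := by
  have hcode : ∀ i < k, ∀ j < k, f i + (n + 2) * f j ≤ mx n := by
    intro i hi j hj
    have h1 := hf i hi
    have h2 := hf j hj
    unfold mx
    nlinarith
  have hq : ∀ e ∈ LS k, (fun e : El => if e.1 = 0 then f e.2.1 + (n + 2) * f e.2.2 + 1 else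
      if e.1 = 1 then n + 1 - f e.2.1 else n + 1 - f e.2.2) e ≤ len n e := by
    intro e he
    rw [mem_LS] at he
    have h1 := hcode _ he.2.1 _ he.2.2
    unfold len
    simp only
    split_ifs <;> omega
  refine ⟨_, hq, ?_⟩
  have hF : ∀ i < k, ∀ j < k, F n x i j (f i + (n + 2) * f j + 1) = 3 * (f i + (n + 2) * f j) + 1 := by
    intro i hi j hj
    have h1 : ok n x i j (f i + (n + 2) * f j) = true := by
      have h2 : (f i + (n + 2) * f j) % (n + 2) = f i := by
        rw [Nat.add_mul_mod_self_left, Nat.mod_eq_of_lt (by have := hf i hi; omega)]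
      have h3 : (f i + (n + 2) * f j) / (n + 2) = f j := by
        rw [Nat.add_mul_div_left _ _ (by omega), Nat.div_eq_of_lt (by have := hf i hi; omega),
          zero_add]
      unfold ok
      rw [h2, h3, hal i hi j hj]
      simp [hf i hi, hf j hj]
    unfold F
    rw [if_neg (by omega), Nat.add_sub_cancel, if_pos h1]
  rintro ⟨c, i, j⟩ hy
  rw [mem_HS] at hy
  obtain ⟨h3, h5, hi, hj⟩ := hy
  simp only at h3 h5 hi hj
  have h1 := hf i hi
  have h2 := hf j hj
  have hmx : (n + 1) * 3 + (n + 1) * (3 * (n + 2)) = 3 * mx n := by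
    unfold mx
    ring
  have hc : c = 3 ∨ c = 4 := by omega
  rcases hc with rfl | rfl
  · rw [load_P hq hi hj]
    simp only [if_true, one_ne_zero, if_false, OfNat.ofNat_ne_zero, OfNat.ofNat_ne_one]
    rw [hF i hi j hj]
    obtain ⟨a, ha⟩ : ∃ a, n + 1 = f i + a := ⟨n + 1 - f i, by omega⟩
    obtain ⟨b, hb⟩ : ∃ b, n + 1 = f j + b := ⟨n + 1 - f j, by omega⟩
    have ha' : n + 1 - f i = a := by omega
    have hb' : n + 1 - f j = b := by omega
    rw [ha', hb']
    have h6 : (n + 1) * 3 = f i * 3 + a * 3 := by rw [ha]; ring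
    have h7 : (n + 1) * (3 * (n + 2)) = 3 * ((n + 2) * f j) + b * (3 * (n + 2)) := by
      conv_lhs => rw [hb]
      ring
    unfold zP hh
    omega
  · have h8 := load_Q (x := x) hq hi hj
    simp only [if_true, one_ne_zero, if_false, OfNat.ofNat_ne_zero, OfNat.ofNat_ne_one] at h8
    rw [hF i hi j hj] at h8
    obtain ⟨a, ha⟩ : ∃ a, n + 1 = f i + a := ⟨n + 1 - f i, by omega⟩
    obtain ⟨b, hb⟩ : ∃ b, n + 1 = f j + b := ⟨n + 1 - f j, by omega⟩
    have ha' : n + 1 - f i = a := by omega
    have hb' : n + 1 - f j = b := by omega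
    rw [ha', hb'] at h8
    have h6 : (n + 1) * 3 = f i * 3 + a * 3 := by rw [ha]; ring
    have h7 : (n + 1) * (3 * (n + 2)) = 3 * ((n + 2) * f j) + b * (3 * (n + 2)) := by
      conv_lhs => rw [hb]
      ring
    unfold zQ at h8
    unfold hh
    omega

/-- **From cuts to cliques.** -/
theorem clique_of_cut {n k : ℕ} {x : List Bool} {q : El → ℕ} (hq : ∀ e ∈ LS k, q e ≤ len n e)
    (hl : ∀ y ∈ HS k, (shape n k x).load q y ≤ hh n k) :
    ∃ f : ℕ → ℕ, (∀ i < k, f i < n) ∧ ∀ i < k, ∀ j < k, DS.alw n x i j (f i) (f j) = true := by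
  -- the rows and the columns
  have hq1 : ∀ i < k, ∀ j < k, q (1, i, j) ≤ n + 1 := fun i hi j hj =>
    hq (1, i, j) (mem_LS.2 ⟨by norm_num, hi, hj⟩)
  have hq2 : ∀ i < k, ∀ j < k, q (2, i, j) ≤ n + 1 := fun i hi j hj =>
    hq (2, i, j) (mem_LS.2 ⟨by norm_num, hi, hj⟩)
  have hq0 : ∀ i < k, ∀ j < k, q (0, i, j) ≤ mx n + 2 := fun i hi j hj =>
    hq (0, i, j) (mem_LS.2 ⟨by norm_num, hi, hj⟩)
  set r : ℕ → ℕ → ℕ := fun i j => n + 1 - q (1, i, j) with hr
  set c : ℕ → ℕ → ℕ := fun i j => n + 1 - q (2, i, j) with hc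
  have hmx : (n + 1) * 3 + (n + 1) * (3 * (n + 2)) = 3 * mx n := by
    unfold mx
    ring
  have hP : ∀ i < k, ∀ j < k, F n x i j (q (0, i, j)) ≤ 3 * (r i j + (n + 2) * c i j) + 1 := by
    intro i hi j hj
    have h1 := hl (3, i, j) (mem_HS.2 ⟨le_rfl, by norm_num, hi, hj⟩)
    rw [load_P hq hi hj] at h1
    have e1 : n + 1 = r i j + q (1, i, j) := by have := hq1 i hi j hj; simp only [hr]; omega
    have e2 : n + 1 = c i j + q (2, i, j) := by have := hq2 i hi j hj; simp only [hc]; omega
    have h6 : (n + 1) * 3 = r i j * 3 + q (1, i, j) * 3 := by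
      conv_lhs => rw [e1]
      ring
    have h7 : (n + 1) * (3 * (n + 2)) = 3 * ((n + 2) * c i j) + q (2, i, j) * (3 * (n + 2)) := by
      conv_lhs => rw [e2]
      ring
    unfold zP hh at h1
    omega
  have hQ : ∀ i < k, ∀ j < k, 3 * (r i (dn k j) + (n + 2) * c (dn k i) j) + 1 ≤
      F n x i j (q (0, i, j)) := by
    intro i hi j hj
    have h1 := hl (4, i, j) (mem_HS.2 ⟨by norm_num, by norm_num, hi, hj⟩)
    have h2 := load_Q (x := x) hq hi hj
    have e1 : n + 1 = r i (dn k j) + q (1, i, dn k j) := by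
      have := hq1 i hi _ (dn_lt hj); simp only [hr]; omega
    have e2 : n + 1 = c (dn k i) j + q (2, dn k i, j) := by
      have := hq2 _ (dn_lt hi) j hj; simp only [hc]; omega
    have h6 : (n + 1) * 3 = r i (dn k j) * 3 + q (1, i, dn k j) * 3 := by
      conv_lhs => rw [e1]
      ring
    have h7 : (n + 1) * (3 * (n + 2)) = 3 * ((n + 2) * c (dn k i) j) +
        q (2, dn k i, j) * (3 * (n + 2)) := by
      conv_lhs => rw [e2]
      ring
    unfold zQ at h2
    unfold hh at h1
    omega
  -- all inequalities are equalities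
  have hle : ∀ i ∈ range k, ∀ j ∈ range k, r i (dn k j) + (n + 2) * c (dn k i) j ≤
      r i j + (n + 2) * c i j := by
    intro i hi j hj
    have h1 := hP i (mem_range.1 hi) j (mem_range.1 hj)
    have h2 := hQ i (mem_range.1 hi) j (mem_range.1 hj)
    omega
  have hsum : ∑ i ∈ range k, ∑ j ∈ range k, (r i (dn k j) + (n + 2) * c (dn k i) j) =
      ∑ i ∈ range k, ∑ j ∈ range k, (r i j + (n + 2) * c i j) := by
    simp only [sum_add_distrib]
    congr 1
    · exact sum_congr rfl fun i _ => sum_dn k (fun j => r i j)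
    · exact sum_dn k (fun i => ∑ j ∈ range k, (n + 2) * c i j)
  have heq : ∀ i < k, ∀ j < k, r i (dn k j) + (n + 2) * c (dn k i) j =
      r i j + (n + 2) * c i j := by
    have h1 := (Finset.sum_eq_sum_iff_of_le (fun i hi => Finset.sum_le_sum (hle i hi))).1 hsum
    intro i hi j hj
    have h2 := h1 i (mem_range.2 hi)
    exact (Finset.sum_eq_sum_iff_of_le (hle i (mem_range.2 hi))).1 h2 j (mem_range.2 hj)
  have hrn : ∀ i j, r i j < n + 2 := fun i j => by simp only [hr]; omega
  have huniq : ∀ a b a' b' : ℕ, a < n + 2 → a' < n + 2 → a + (n + 2) * b = a' + (n + 2) * b' →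
      a = a' ∧ b = b' := by
    intro a b a' b' ha ha' h
    have h1 : (a + (n + 2) * b) % (n + 2) = a := by
      rw [Nat.add_mul_mod_self_left, Nat.mod_eq_of_lt ha]
    have h2 : (a' + (n + 2) * b') % (n + 2) = a' := by
      rw [Nat.add_mul_mod_self_left, Nat.mod_eq_of_lt ha']
    have h3 : a = a' := by rw [← h1, ← h2, h]
    subst h3
    refine ⟨rfl, ?_⟩
    have h4 : (n + 2) * b = (n + 2) * b' := by omega
    exact Nat.eq_of_mul_eq_mul_left (by omega) h4
  have hr1 : ∀ i < k, ∀ j < k, r i (dn k j) = r i j := fun i hi j hj =>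
    (huniq _ _ _ _ (hrn _ _) (hrn _ _) (heq i hi j hj)).1
  have hc1 : ∀ i < k, ∀ j < k, c (dn k i) j = c i j := fun i hi j hj =>
    (huniq _ _ _ _ (hrn _ _) (hrn _ _) (heq i hi j hj)).2
  have hrow : ∀ i < k, ∀ j < k, r i j = r i 0 := by
    intro i hi j
    induction j with
    | zero => intro _; rfl
    | succ j ih =>
      intro hj
      rw [← hr1 i hi (j + 1) hj]
      have : dn k (j + 1) = j := by unfold dn; simp
      rw [this]
      exact ih (by omega)
  have hcol : ∀ j < k, ∀ i < k, c i j = c 0 j := by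
    intro j hj i
    induction i with
    | zero => intro _; rfl
    | succ i ih =>
      intro hi
      rw [← hc1 (i + 1) hi j hj]
      have : dn k (i + 1) = i := by unfold dn; simp
      rw [this]
      exact ih (by omega)
  -- the codes are allowed
  have hal : ∀ i < k, ∀ j < k, r i j < n ∧ c i j < n ∧ DS.alw n x i j (r i j) (c i j) = true := by
    intro i hi j hj
    have h1 := hP i hi j hj
    have h2 := hQ i hi j hj
    have h3 := heq i hi j hj
    have h4 : F n x i j (q (0, i, j)) = 3 * (r i j + (n + 2) * c i j) + 1 := by omega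
    have hcn : c i j ≤ n + 1 := by simp only [hc]; omega
    have hcode : r i j + (n + 2) * c i j ≤ mx n := by
      have := hrn i j
      unfold mx
      nlinarith
    unfold F at h4
    split_ifs at h4 with h5 h6
    · have h7 : q (0, i, j) - 1 = r i j + (n + 2) * c i j := by omega
      rw [h7] at h6
      unfold ok at h6
      have h8 : (r i j + (n + 2) * c i j) % (n + 2) = r i j := by
        rw [Nat.add_mul_mod_self_left, Nat.mod_eq_of_lt (hrn i j)]
      have h9 : (r i j + (n + 2) * c i j) / (n + 2) = c i j := by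
        rw [Nat.add_mul_div_left _ _ (by omega), Nat.div_eq_of_lt (hrn i j), zero_add]
      rw [h8, h9] at h6
      simp only [Bool.or_eq_true, decide_eq_true_eq, Bool.and_eq_true] at h6
      rcases h6 with h6 | h6
      · omega
      · exact ⟨h6.1.1, h6.1.2, h6.2⟩
    · omega
  refine ⟨fun i => r i 0, ?_, ?_⟩
  · intro i hi
    exact (hal i hi 0 (by omega)).1
  · intro i hi j hj
    obtain ⟨-, -, h1⟩ := hal i hi j hj
    rw [hrow i hi j hj, hcol j hj i hi] at h1
    obtain ⟨-, -, h2⟩ := hal j hj j hj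
    rw [hrow j hj j hj, hcol j hj j hj] at h2
    have h3 : r j 0 = c 0 j := by
      unfold DS.alw at h2
      simpa using h2
    simp only
    rw [h3]
    exact h1

end Pool.Agent.R550.TE
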