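import Mathlib

/-!
# Hubs and links

Graphs consisting of stars (*hubs*) that are joined by paths of stars (*links*), and the deletion of
few edges to get small components.
-/

namespace Pool.Agent.R550.TE

/-- Every component of `G` has at most `h` vertices. -/
def Small {V : Type} (G : SimpleGraph V) (h : ℕ) : Prop :=
  ∀ C : G.ConnectedComponent, C.supp.ncard ≤ h

/-- The shape of a graph of hubs and links. -/
structure Shape (E : Type) [DecidableEq E] where
  /-- the hubs -/
  Hs : Finset E
  /-- the links -/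
  Ls : Finset E
  /-- the hub where a link starts -/
  src : E → E
  /-- the hub where a link ends -/
  dst : E → E
  /-- the number of the stars of a link -/
  len : E → ℕ
  /-- the sizes of the stars -/
  sz : E → ℕ → ℕ
  not_hub : ∀ e ∈ Ls, e ∉ Hs
  src_mem : ∀ e ∈ Ls, src e ∈ Hs
  dst_mem : ∀ e ∈ Ls, dst e ∈ Hs
  ne : ∀ e ∈ Ls, src e ≠ dst e
  len_hub : ∀ x ∈ Hs, len x = 1
  len_pos : ∀ e ∈ Ls, 1 ≤ len e
  sz_pos : ∀ e, e ∈ Hs ∨ e ∈ Ls → ∀ t < len e, 1 ≤ sz e t

variable {E : Type} [DecidableEq E]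

namespace Shape

variable (S : Shape E)

/-- The labels of the vertices. -/
def Val (a : (E × ℕ) × ℕ) : Prop :=
  (a.1.1 ∈ S.Hs ∨ a.1.1 ∈ S.Ls) ∧ a.1.2 < S.len a.1.1 ∧ a.2 < S.sz a.1.1 a.1.2

/-- The edges in terms of labels. -/
def T (a b : (E × ℕ) × ℕ) : Prop :=
  a.2 = 0 ∧ ((a.1 = b.1 ∧ b.2 ≠ 0) ∨ (b.2 = 0 ∧ ((a.1.1 = b.1.1 ∧ b.1.2 = a.1.2 + 1) ∨
    (b.1.1 ∈ S.Ls ∧ b.1.2 = 0 ∧ a.1.1 = S.src b.1.1) ∨
    (b.1.1 ∈ S.Ls ∧ b.1.2 + 1 = S.len b.1.1 ∧ a.1.1 = S.dst b.1.1))))

/-- The positions on a link. -/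
def pos (e : E) (p : ℕ) : (E × ℕ) × ℕ :=
  if p = 0 then ((S.src e, 0), 0) else if p ≤ S.len e then ((e, p - 1), 0) else ((S.dst e, 0), 0)

/-- The hub a star belongs to, if the link `e` is cut at the position `q e`. -/
def side (q : E → ℕ) (b : E × ℕ) : E :=
  if b.1 ∈ S.Hs then b.1 else if b.2 < q b.1 then S.src b.1 else S.dst b.1

/-- The number of the vertices that belong to a hub. -/
def load (q : E → ℕ) (x : E) : ℕ :=
  S.sz x 0 + ∑ e ∈ S.Ls, ∑ t ∈ (Finset.range (S.len e)).filter
    (fun t => (if t < q e then S.src e else S.dst e) = x), S.sz e t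

end Shape

/-- A graph with the given shape. -/
structure Lay {V : Type} (G : SimpleGraph V) (S : Shape E) where
  /-- the label of a vertex -/
  lab : V → (E × ℕ) × ℕ
  /-- the vertex of a label -/
  vx : (E × ℕ) × ℕ → V
  inj : Function.Injective lab
  val : ∀ v, S.Val (lab v)
  lab_vx : ∀ a, S.Val a → lab (vx a) = a
  adj : ∀ u v, G.Adj u v ↔ u ≠ v ∧ (S.T (lab u) (lab v) ∨ S.T (lab v) (lab u))

namespace Shape

variable {S : Shape E}

theorem pos_zero (e : E) : S.pos e 0 = ((S.src e, 0), 0) := by simp [pos]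

theorem pos_succ {e : E} {t : ℕ} (h : t < S.len e) : S.pos e (t + 1) = ((e, t), 0) := by
  unfold pos
  rw [if_neg (by omega), if_pos (by omega)]
  simp

theorem pos_last (e : E) : S.pos e (S.len e + 1) = ((S.dst e, 0), 0) := by
  unfold pos
  rw [if_neg (by omega), if_neg (by omega)]

theorem val_pos {e : E} (he : e ∈ S.Ls) {p : ℕ} (hp : p ≤ S.len e + 1) : S.Val (S.pos e p) := by
  rcases Nat.eq_zero_or_pos p with rfl | h0
  · rw [pos_zero]
    have h1 := S.src_mem e he
    have h2 := S.len_hub _ h1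
    exact ⟨Or.inl h1, by simp only; omega, S.sz_pos _ (Or.inl h1) 0 (by omega)⟩
  · rcases Nat.lt_or_ge (S.len e) p with h1 | h1
    · have : p = S.len e + 1 := by omega
      subst this
      rw [pos_last]
      have h1 := S.dst_mem e he
      have h2 := S.len_hub _ h1
      exact ⟨Or.inl h1, by simp only; omega, S.sz_pos _ (Or.inl h1) 0 (by omega)⟩
    · obtain ⟨t, rfl⟩ := Nat.exists_eq_succ_of_ne_zero h0.ne'
      rw [Nat.succ_eq_add_one, pos_succ (by omega)]
      exact ⟨Or.inr he, by simp only; omega, S.sz_pos _ (Or.inr he) t (by omega)⟩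

/-- Inner positions determine the link and the position. -/
theorem pos_inj {e e' : E} (he : e ∈ S.Ls) (he' : e' ∈ S.Ls) {t p' : ℕ}
    (ht : t < S.len e) (hp : p' ≤ S.len e' + 1) (h : S.pos e (t + 1) = S.pos e' p') :
    e = e' ∧ t + 1 = p' := by
  rw [pos_succ ht] at h
  rcases Nat.eq_zero_or_pos p' with rfl | h0
  · rw [pos_zero] at h
    simp only [Prod.mk.injEq, and_true] at h
    exact absurd (h.1 ▸ S.src_mem e' he') (S.not_hub e he)
  · rcases Nat.lt_or_ge (S.len e') p' with h1 | h1
    · have : p' = S.len e' + 1 := by omega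
      subst this
      rw [pos_last] at h
      simp only [Prod.mk.injEq, and_true] at h
      exact absurd (h.1 ▸ S.dst_mem e' he') (S.not_hub e he)
    · obtain ⟨t', rfl⟩ := Nat.exists_eq_succ_of_ne_zero h0.ne'
      rw [Nat.succ_eq_add_one, pos_succ (by omega)] at h
      simp only [Prod.mk.injEq, and_true] at h
      exact ⟨h.1, by omega⟩

theorem T_pos {e : E} (he : e ∈ S.Ls) {p : ℕ} (hp : p ≤ S.len e) :
    S.T (S.pos e p) (S.pos e (p + 1)) ∨ S.T (S.pos e (p + 1)) (S.pos e p) := by
  have h1 := S.len_pos e he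
  rcases Nat.eq_zero_or_pos p with rfl | h0
  · left
    rw [pos_zero, pos_succ (by omega)]
    exact ⟨rfl, Or.inr ⟨rfl, Or.inr (Or.inl ⟨he, rfl, rfl⟩)⟩⟩
  · obtain ⟨t, rfl⟩ := Nat.exists_eq_succ_of_ne_zero h0.ne'
    rw [Nat.succ_eq_add_one] at *
    rcases Nat.lt_or_ge (t + 1) (S.len e) with h2 | h2
    · left
      rw [pos_succ (by omega), pos_succ h2]
      exact ⟨rfl, Or.inr ⟨rfl, Or.inl ⟨rfl, rfl⟩⟩⟩
    · right
      have h3 : t + 1 = S.len e := by omega
      rw [pos_succ (t := t) (by omega), h3, pos_last]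
      exact ⟨rfl, Or.inr ⟨rfl, Or.inr (Or.inr ⟨he, h3, rfl⟩)⟩⟩

theorem pos_ne {e : E} (he : e ∈ S.Ls) {p : ℕ} (hp : p ≤ S.len e) :
    S.pos e p ≠ S.pos e (p + 1) := by
  intro h
  have h1 := S.len_pos e he
  rcases Nat.eq_zero_or_pos p with rfl | h0
  · have := (pos_inj he he (t := 0) (p' := 0) (by omega) (by omega) h.symm).2
    omega
  · obtain ⟨t, rfl⟩ := Nat.exists_eq_succ_of_ne_zero h0.ne'
    rw [Nat.succ_eq_add_one] at *
    have := (pos_inj he he (t := t) (p' := t + 1 + 1) (by omega) (by omega) h).2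
    omega

theorem pos_pair_inj {e e' : E} (he : e ∈ S.Ls) (he' : e' ∈ S.Ls) {p p' : ℕ} (hp : p ≤ S.len e)
    (hp' : p' ≤ S.len e') (h : (S.pos e p = S.pos e' p' ∧ S.pos e (p + 1) = S.pos e' (p' + 1)) ∨
      (S.pos e p = S.pos e' (p' + 1) ∧ S.pos e (p + 1) = S.pos e' p')) : e = e' ∧ p = p' := by
  have h1 := S.len_pos e he
  rcases Nat.eq_zero_or_pos p with rfl | h0
  · rcases h with ⟨h2, h3⟩ | ⟨h2, h3⟩
    · obtain ⟨h4, h5⟩ := pos_inj he he' (by omega) (by omega) h3
      exact ⟨h4, by omega⟩
    · obtain ⟨rfl, rfl⟩ := pos_inj he he' (by omega) (by omega) h3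
      exfalso
      rcases Nat.lt_or_ge 1 (S.len e) with h4 | h4
      · have := (pos_inj he he (t := 1) (p' := 0) h4 (by omega) h2.symm).2
        omega
      · have h5 : S.len e = 1 := by omega
        have h6 := pos_last (S := S) e
        rw [h5] at h6
        rw [pos_zero, h6] at h2
        simp only [Prod.mk.injEq, and_true] at h2
        exact S.ne e he h2
  · obtain ⟨t, rfl⟩ := Nat.exists_eq_succ_of_ne_zero h0.ne'
    rw [Nat.succ_eq_add_one] at *
    rcases h with ⟨h2, h3⟩ | ⟨h2, h3⟩
    · exact pos_inj he he' (by omega) (by omega) h2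
    · obtain ⟨rfl, h4⟩ := pos_inj he he' (by omega) (by omega) h2
      have h5 : t = p' := by omega
      subst h5
      exfalso
      rcases Nat.lt_or_ge (t + 1) (S.len e) with h6 | h6
      · have := (pos_inj he he (t := t + 1) (p' := t) h6 (by omega) h3).2
        omega
      · have h7 : t + 1 = S.len e := by omega
        rw [h7, pos_last] at h3
        rcases Nat.eq_zero_or_pos t with rfl | h8
        · rw [pos_zero] at h3
          simp only [Prod.mk.injEq, and_true] at h3
          exact S.ne e he h3.symm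
        · obtain ⟨t', rfl⟩ := Nat.exists_eq_succ_of_ne_zero h8.ne'
          rw [Nat.succ_eq_add_one, pos_succ (by omega)] at h3
          simp only [Prod.mk.injEq, and_true] at h3
          exact S.not_hub e he (h3.1 ▸ S.dst_mem e he)

theorem side_hub {q : E → ℕ} {x : E} (hx : x ∈ S.Hs) (t : ℕ) : S.side q (x, t) = x := by
  unfold side
  rw [if_pos hx]

theorem side_link {q : E → ℕ} {e : E} (he : e ∈ S.Ls) (t : ℕ) :
    S.side q (e, t) = if t < q e then S.src e else S.dst e := by
  unfold side
  rw [if_neg (S.not_hub e he)]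

theorem side_mem {q : E → ℕ} {b : E × ℕ} (hb : b.1 ∈ S.Hs ∨ b.1 ∈ S.Ls) : S.side q b ∈ S.Hs := by
  obtain ⟨e, t⟩ := b
  rcases hb with h | h
  · rw [side_hub h]
    exact h
  · rw [side_link h]
    split_ifs
    · exact S.src_mem e h
    · exact S.dst_mem e h

end Shape

namespace Lay

variable {V : Type} {G : SimpleGraph V} {S : Shape E} (L : Lay G S)

include L

theorem vx_lab (v : V) : L.vx (L.lab v) = v := L.inj (L.lab_vx _ (L.val v))

/-- The edge at position `p` of the link `e`. -/
def lk (e : E) (p : ℕ) : Sym2 V := s(L.vx (S.pos e p), L.vx (S.pos e (p + 1)))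

theorem lk_inj {e e' : E} (he : e ∈ S.Ls) (he' : e' ∈ S.Ls) {p p' : ℕ} (hp : p ≤ S.len e)
    (hp' : p' ≤ S.len e') (h : L.lk e p = L.lk e' p') : e = e' ∧ p = p' := by
  have h1 := Shape.val_pos he (p := p) (by omega)
  have h2 := Shape.val_pos he (p := p + 1) (by omega)
  have h3 := Shape.val_pos he' (p := p') (by omega)
  have h4 := Shape.val_pos he' (p := p' + 1) (by omega)
  refine Shape.pos_pair_inj he he' hp hp' ?_
  unfold lk at h
  rw [Sym2.eq_iff] at h
  rcases h with ⟨h5, h6⟩ | ⟨h5, h6⟩
  · left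
    rw [← L.lab_vx _ h1, ← L.lab_vx _ h2, ← L.lab_vx _ h3, ← L.lab_vx _ h4, h5, h6]
    exact ⟨rfl, rfl⟩
  · right
    rw [← L.lab_vx _ h1, ← L.lab_vx _ h2, ← L.lab_vx _ h3, ← L.lab_vx _ h4, h5, h6]
    exact ⟨rfl, rfl⟩

theorem adj_lk {e : E} (he : e ∈ S.Ls) {p : ℕ} (hp : p ≤ S.len e) :
    G.Adj (L.vx (S.pos e p)) (L.vx (S.pos e (p + 1))) := by
  have h1 := Shape.val_pos he (p := p) (by omega)
  have h2 := Shape.val_pos he (p := p + 1) (by omega)
  rw [L.adj, L.lab_vx _ h1, L.lab_vx _ h2]
  refine ⟨fun h => Shape.pos_ne he hp ?_, Shape.T_pos he hp⟩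
  rw [← L.lab_vx _ h1, ← L.lab_vx _ h2, h]

theorem reach {F : Set (Sym2 V)} {e : E} (he : e ∈ S.Ls) {a b : ℕ} (hab : a ≤ b)
    (hb : b ≤ S.len e + 1) (h : ∀ p, a ≤ p → p < b → L.lk e p ∉ F) :
    (G.deleteEdges F).Reachable (L.vx (S.pos e a)) (L.vx (S.pos e b)) := by
  induction b, hab using Nat.le_induction with
  | base => exact SimpleGraph.Reachable.refl _
  | succ b hab ih =>
    refine (ih (by omega) fun p h1 h2 => h p h1 (by omega)).trans ?_
    refine SimpleGraph.Adj.reachable ?_
    rw [SimpleGraph.deleteEdges_adj]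
    exact ⟨L.adj_lk he (by omega), h b hab (by omega)⟩

/-- A leaf of a star is joined to its center. -/
theorem reach_leaf {F : Set (Sym2 V)} {b : E × ℕ} {l : ℕ} (h : S.Val (b, l))
    (h' : l ≠ 0 → s(L.vx (b, 0), L.vx (b, l)) ∉ F) :
    (G.deleteEdges F).Reachable (L.vx (b, 0)) (L.vx (b, l)) := by
  rcases Nat.eq_zero_or_pos l with rfl | h0
  · exact SimpleGraph.Reachable.refl _
  · refine SimpleGraph.Adj.reachable ?_
    have hv : S.Val (b, 0) := ⟨h.1, h.2.1, lt_of_le_of_lt (Nat.zero_le _) h.2.2⟩
    rw [SimpleGraph.deleteEdges_adj]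
    refine ⟨?_, h' h0.ne'⟩
    rw [L.adj, L.lab_vx _ hv, L.lab_vx _ h]
    refine ⟨fun h1 => ?_, Or.inl ⟨rfl, Or.inl ⟨rfl, h0.ne'⟩⟩⟩
    have h2 := L.lab_vx _ hv
    rw [h1, L.lab_vx _ h] at h2
    simp only [Prod.mk.injEq, true_and] at h2
    omega

/-- Adjacent vertices are on the same side, unless they are joined by a cut. -/
theorem side_adj {q : E → ℕ} (hq : ∀ e ∈ S.Ls, q e ≤ S.len e) {F : Set (Sym2 V)}
    (hF : ∀ e ∈ S.Ls, L.lk e (q e) ∈ F) {u v : V} (h : (G.deleteEdges F).Adj u v) :
    S.side q (L.lab u).1 = S.side q (L.lab v).1 := by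
  have key : ∀ u v : V, s(u, v) ∉ F → S.T (L.lab u) (L.lab v) →
      S.side q (L.lab u).1 = S.side q (L.lab v).1 := by
    intro u v hF' hT
    have hu := L.val u
    have hv := L.val v
    obtain ⟨⟨⟨e, t⟩, l⟩, hue⟩ : ∃ a, L.lab u = a := ⟨_, rfl⟩
    obtain ⟨⟨⟨e', t'⟩, l'⟩, hve⟩ : ∃ a, L.lab v = a := ⟨_, rfl⟩
    have hu' : L.vx ((e, t), l) = u := by rw [← hue]; exact L.vx_lab u
    have hv' : L.vx ((e', t'), l') = v := by rw [← hve]; exact L.vx_lab v
    rw [hue] at hT hu ⊢
    rw [hve] at hT hv ⊢
    obtain ⟨hl, hT⟩ := hT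
    simp only at hl hT ⊢
    rcases hT with ⟨h1, -⟩ | ⟨hl', hT⟩
    · rw [h1]
    · subst hl hl'
      obtain ⟨hu1, hu2, -⟩ := hu
      obtain ⟨hv1, hv2, -⟩ := hv
      simp only at hu1 hu2 hv1 hv2
      rcases hT with ⟨rfl, rfl⟩ | ⟨h1, rfl, rfl⟩ | ⟨h1, h2, rfl⟩
      · rcases hu1 with h2 | h2
        · rw [Shape.side_hub h2, Shape.side_hub h2]
        · rw [Shape.side_link h2, Shape.side_link h2]
          by_contra h3
          have h4 : q e = t + 1 := by
            by_contra h4
            apply h3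
            split_ifs
            all_goals first | rfl | omega
          apply hF'
          have h5 := hF e h2
          unfold lk at h5
          rw [h4, Shape.pos_succ hu2, Shape.pos_succ hv2, hu', hv'] at h5
          exact h5
      · have h2 := S.src_mem e' h1
        rw [Shape.side_hub h2, Shape.side_link h1]
        by_contra h3
        have h4 : q e' = 0 := by
          by_contra h4
          apply h3
          rw [if_pos (by omega)]
        apply hF'
        have h5 := hF e' h1
        unfold lk at h5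
        have h6 := S.len_hub _ h2
        have h7 : t = 0 := by omega
        subst h7
        rw [h4, Shape.pos_zero, Shape.pos_succ (by omega), hu', hv'] at h5
        exact h5
      · have h3 := S.dst_mem e' h1
        rw [Shape.side_hub h3, Shape.side_link h1]
        by_contra h4
        have h5 : q e' = t' + 1 := by
          have := hq e' h1
          by_contra h5
          apply h4
          rw [if_neg (by omega)]
        apply hF'
        have h6 := hF e' h1
        unfold lk at h6
        have h7 := S.len_hub _ h3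
        have h8 : t = 0 := by omega
        subst h8
        rw [h5, Shape.pos_succ (by omega), h2, Shape.pos_last, hu', hv', Sym2.eq_swap] at h6
        exact h6
  rw [SimpleGraph.deleteEdges_adj, L.adj] at h
  obtain ⟨⟨-, h1 | h1⟩, h2⟩ := h
  · exact key u v h2 h1
  · exact (key v u (by rwa [Sym2.eq_swap]) h1).symm

/-- The number of vertices on a side. -/
theorem card_side [Fintype V] (q : E → ℕ) {x : E} (hx : x ∈ S.Hs) :
    (Finset.univ.filter fun v => S.side q (L.lab v).1 = x).card = S.load q x := by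
  classical
  have h1 : (Finset.univ.filter fun v => S.side q (L.lab v).1 = x).card =
      (((insert x S.Ls).sigma fun e => ((Finset.range (S.len e)).filter fun t =>
        S.side q (e, t) = x).sigma fun t => Finset.range (S.sz e t)) :
        Finset (Σ _ : E, Σ _ : ℕ, ℕ)).card := by
    refine Finset.card_bij (fun v _ => ⟨(L.lab v).1.1, (L.lab v).1.2, (L.lab v).2⟩) ?_ ?_ ?_
    · intro v hv
      rw [Finset.mem_filter] at hv
      have h2 := L.val v
      simp only [Finset.mem_sigma, Finset.mem_filter, Finset.mem_range, Finset.mem_insert]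
      refine ⟨?_, ⟨h2.2.1, hv.2⟩, h2.2.2⟩
      rcases h2.1 with h3 | h3
      · left
        have h4 := hv.2
        rw [← Prod.mk.eta (p := (L.lab v).1), Shape.side_hub h3] at h4
        exact h4
      · exact Or.inr h3
    · intro u hu v hv h
      apply L.inj
      simp only [Sigma.mk.injEq, heq_eq_eq] at h
      exact Prod.ext (Prod.ext h.1 h.2.1) h.2.2
    · rintro ⟨e, t, l⟩ h
      simp only [Finset.mem_sigma, Finset.mem_filter, Finset.mem_range, Finset.mem_insert] at h
      obtain ⟨h2, ⟨h3, h4⟩, h5⟩ := h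
      have h6 : S.Val ((e, t), l) := by
        refine ⟨?_, h3, h5⟩
        rcases h2 with rfl | h2
        · exact Or.inl hx
        · exact Or.inr h2
      refine ⟨L.vx ((e, t), l), ?_, ?_⟩
      · rw [Finset.mem_filter, L.lab_vx _ h6]
        exact ⟨Finset.mem_univ _, h4⟩
      · rw [L.lab_vx _ h6]
  rw [h1, Finset.card_sigma, Finset.sum_insert (fun h => S.not_hub x h hx)]
  unfold Shape.load
  congr 1
  · rw [Finset.card_sigma, S.len_hub x hx]
    have h2 : (Finset.range 1).filter (fun t => S.side q (x, t) = x) = {0} := by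
      ext t
      simp only [Finset.mem_filter, Finset.mem_range, Finset.mem_singleton, Shape.side_hub hx,
        and_true]
      omega
    rw [h2, Finset.sum_singleton, Finset.card_range]
  · refine Finset.sum_congr rfl fun e he => ?_
    rw [Finset.card_sigma]
    refine Finset.sum_congr ?_ fun t _ => Finset.card_range _
    ext t
    simp only [Finset.mem_filter, Shape.side_link he]

variable [Fintype V]

/-- **From cuts to deletions.** -/
theorem small_of_load {q : E → ℕ} {h : ℕ} (hq : ∀ e ∈ S.Ls, q e ≤ S.len e)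
    (hl : ∀ x ∈ S.Hs, S.load q x ≤ h) : ∃ F : Finset (Sym2 V), (F : Set (Sym2 V)) ⊆ G.edgeSet ∧
      F.card ≤ S.Ls.card ∧ Small (G.deleteEdges F) h := by
  classical
  refine ⟨S.Ls.image fun e => L.lk e (q e), ?_, Finset.card_image_le, ?_⟩
  · intro y hy
    rw [Finset.coe_image] at hy
    obtain ⟨e, he, rfl⟩ := hy
    exact L.adj_lk he (hq e he)
  · intro C
    induction C using SimpleGraph.ConnectedComponent.ind with
    | _ v =>
    have h1 := L.card_side q (Shape.side_mem (q := q) (L.val v).1)
    have h2 := hl _ (Shape.side_mem (q := q) (L.val v).1)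
    rw [← h1, ← Set.ncard_coe_finset] at h2
    refine le_trans (Set.ncard_le_ncard ?_ (Finset.finite_toSet _)) h2
    intro u hu
    rw [SimpleGraph.ConnectedComponent.mem_supp_iff, SimpleGraph.ConnectedComponent.eq] at hu
    rw [Finset.mem_coe, Finset.mem_filter]
    refine ⟨Finset.mem_univ _, ?_⟩
    obtain ⟨p⟩ := hu
    clear h1 h2
    induction p with
    | nil => rfl
    | cons h p ih =>
      rw [L.side_adj hq (F := ((S.Ls.image fun e => L.lk e (q e) : Finset _) : Set _)) ?_ h]
      · exact ih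
      · intro e he
        rw [Finset.mem_coe]
        exact Finset.mem_image_of_mem _ he

/-- **From deletions to cuts.** -/
theorem load_of_small {F : Finset (Sym2 V)} {h : ℕ} (hF : F.card ≤ S.Ls.card)
    (hs : Small (G.deleteEdges F) h)
    (hbig : ∀ e ∈ S.Ls, h + S.Ls.card < S.sz (S.src e) 0 + S.sz (S.dst e) 0) :
    ∃ q : E → ℕ, (∀ e ∈ S.Ls, q e ≤ S.len e) ∧ ∀ x ∈ S.Hs, S.load q x ≤ h := by
  classical
  -- every link contains a deleted edge
  have hcut : ∀ e ∈ S.Ls, ∃ p ≤ S.len e, L.lk e p ∈ F := by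
    intro e he
    by_contra hno
    push Not at hno
    have h1 := L.reach (F := F) he (a := 0) (b := S.len e + 1) (by omega) le_rfl
      (fun p _ hp => by
        rw [Finset.mem_coe]
        exact hno p (by omega))
    rw [Shape.pos_zero, Shape.pos_last] at h1
    set C := (G.deleteEdges F).connectedComponentMk (L.vx ((S.src e, 0), 0)) with hC
    have hsm := S.src_mem e he
    have hdm := S.dst_mem e he
    have hls := S.len_hub _ hsm
    have hld := S.len_hub _ hdm
    have hvs : ∀ l < S.sz (S.src e) 0, S.Val ((S.src e, 0), l) := fun l hl =>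
      ⟨Or.inl hsm, by simp only; omega, hl⟩
    have hvd : ∀ l < S.sz (S.dst e) 0, S.Val ((S.dst e, 0), l) := fun l hl =>
      ⟨Or.inl hdm, by simp only; omega, hl⟩
    set Sg : Finset V := (Finset.range (S.sz (S.src e) 0)).image (fun l => L.vx ((S.src e, 0), l)) ∪
      (Finset.range (S.sz (S.dst e) 0)).image (fun l => L.vx ((S.dst e, 0), l)) with hSg
    have hcard : Sg.card = S.sz (S.src e) 0 + S.sz (S.dst e) 0 := by
      rw [hSg, Finset.card_union_of_disjoint, Finset.card_image_of_injOn, Finset.card_image_of_injOn,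
        Finset.card_range, Finset.card_range]
      · intro l hl l' hl' h2
        rw [Finset.mem_coe, Finset.mem_range] at hl hl'
        have h3 := L.lab_vx _ (hvd l hl)
        simp only at h2
        rw [h2, L.lab_vx _ (hvd l' hl')] at h3
        simp only [Prod.mk.injEq, true_and] at h3
        exact h3.symm
      · intro l hl l' hl' h2
        rw [Finset.mem_coe, Finset.mem_range] at hl hl'
        have h3 := L.lab_vx _ (hvs l hl)
        simp only at h2
        rw [h2, L.lab_vx _ (hvs l' hl')] at h3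
        simp only [Prod.mk.injEq, true_and] at h3
        exact h3.symm
      · rw [Finset.disjoint_left]
        intro v hv hv'
        obtain ⟨l, hl, h2⟩ := Finset.mem_image.1 hv
        obtain ⟨l', hl', h3⟩ := Finset.mem_image.1 hv'
        rw [Finset.mem_range] at hl hl'
        have h4 := L.lab_vx _ (hvs l hl)
        rw [h2, ← h3, L.lab_vx _ (hvd l' hl')] at h4
        simp only [Prod.mk.injEq, and_true] at h4
        exact S.ne e he h4.1.symm
    -- the vertices of the two hubs outside the component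
    have hout : (Sg.filter fun v => v ∉ C.supp).card ≤ F.card := by
      refine Finset.card_le_card_of_injOn (fun v => s(L.vx ((L.lab v).1, 0), v)) ?_ ?_
      · intro v hv
        rw [Finset.coe_filter] at hv
        obtain ⟨hv1, hv2⟩ := hv
        rw [Finset.mem_coe]
        by_contra h2
        apply hv2
        have h3 : (G.deleteEdges F).Reachable (L.vx ((L.lab v).1, 0)) v := by
          have h4 := L.reach_leaf (F := F) (b := (L.lab v).1) (l := (L.lab v).2) (L.val v) ?_
          · have h5 : L.vx ((L.lab v).1, (L.lab v).2) = v := L.vx_lab v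
            rwa [h5] at h4
          · intro _
            have h5 : L.vx ((L.lab v).1, (L.lab v).2) = v := L.vx_lab v
            rw [h5, Finset.mem_coe]
            exact h2
        rw [SimpleGraph.ConnectedComponent.mem_supp_iff, hC, SimpleGraph.ConnectedComponent.eq]
        refine SimpleGraph.Reachable.trans h3.symm ?_
        rw [hSg, Finset.mem_union, Finset.mem_image, Finset.mem_image] at hv1
        rcases hv1 with ⟨l, hl, rfl⟩ | ⟨l, hl, rfl⟩
        · rw [Finset.mem_range] at hl
          rw [L.lab_vx _ (hvs l hl)]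
        · rw [Finset.mem_range] at hl
          rw [L.lab_vx _ (hvd l hl)]
          exact h1.symm
      · intro u hu v hv huv
        rw [Finset.coe_filter] at hu hv
        simp only [Sym2.eq_iff] at huv
        rcases huv with ⟨-, h2⟩ | ⟨h2, h3⟩
        · exact h2
        · -- then both are centers
          have hz : ∀ w : V, S.Val ((L.lab w).1, 0) := fun w =>
            ⟨(L.val w).1, (L.val w).2.1, lt_of_le_of_lt (Nat.zero_le _) (L.val w).2.2⟩
          have h4 : L.lab v = ((L.lab u).1, 0) := by rw [← h2, L.lab_vx _ (hz u)]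
          have h5 : L.lab u = ((L.lab v).1, 0) := by
            conv_lhs => rw [h3]
            rw [L.lab_vx _ (hz v)]
          apply L.inj
          rw [h5, h4]
    have hin : (Sg.filter fun v => v ∈ C.supp).card ≤ h := by
      have h2 := hs C
      refine le_trans ?_ h2
      rw [← Set.ncard_coe_finset]
      refine Set.ncard_le_ncard ?_ (Set.toFinite _)
      intro v hv
      rw [Finset.coe_filter] at hv
      exact hv.2
    have hsum := Finset.card_filter_add_card_filter_not (s := Sg) (fun v => v ∈ C.supp)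
    have := hbig e he
    omega
  choose! q hq hqF using hcut
  have hFeq : S.Ls.image (fun e => L.lk e (q e)) = F := by
    refine Finset.eq_of_subset_of_card_le ?_ ?_
    · intro y hy
      obtain ⟨e, he, rfl⟩ := Finset.mem_image.1 hy
      exact hqF e he
    · rw [Finset.card_image_of_injOn]
      · exact hF
      · intro e he e' he' h1
        exact (L.lk_inj he he' (hq e he) (hq e' he') h1).1
  have hmem : ∀ e ∈ S.Ls, ∀ p ≤ S.len e, L.lk e p ∈ F → p = q e := by
    intro e he p hp h1
    rw [← hFeq, Finset.mem_image] at h1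
    obtain ⟨e', he', h2⟩ := h1
    obtain ⟨rfl, h3⟩ := L.lk_inj he' he (hq e' he') hp h2
    exact h3.symm
  have hleaf : ∀ (b : E × ℕ) (l : ℕ), S.Val (b, l) → l ≠ 0 →
      s(L.vx (b, 0), L.vx (b, l)) ∉ (F : Set (Sym2 V)) := by
    intro b l hv hl h1
    rw [Finset.mem_coe, ← hFeq, Finset.mem_image] at h1
    obtain ⟨e, he, h2⟩ := h1
    have h3 := Shape.val_pos he (p := q e) (by have := hq e he; omega)
    have h4 := Shape.val_pos he (p := q e + 1) (by have := hq e he; omega)
    have hz : ∀ p, (S.pos e p).2 = 0 := by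
      intro p
      unfold Shape.pos
      split_ifs <;> rfl
    unfold lk at h2
    rw [Sym2.eq_iff] at h2
    rcases h2 with ⟨-, h2⟩ | ⟨h2, -⟩
    · have h5 := L.lab_vx _ h4
      rw [h2, L.lab_vx _ hv] at h5
      have h6 := hz (q e + 1)
      rw [← h5] at h6
      exact hl h6
    · have h5 := L.lab_vx _ h3
      rw [h2, L.lab_vx _ hv] at h5
      have h6 := hz (q e)
      rw [← h5] at h6
      exact hl h6
  refine ⟨q, hq, fun x hx => ?_⟩
  rw [← L.card_side q hx]
  refine le_trans ?_ (hs ((G.deleteEdges F).connectedComponentMk (L.vx ((x, 0), 0))))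
  rw [← Set.ncard_coe_finset]
  refine Set.ncard_le_ncard ?_ (Set.toFinite _)
  intro v hv
  rw [Finset.mem_coe, Finset.mem_filter] at hv
  rw [SimpleGraph.ConnectedComponent.mem_supp_iff, SimpleGraph.ConnectedComponent.eq]
  have h1 : (G.deleteEdges F).Reachable (L.vx ((L.lab v).1, 0)) v := by
    have h2 := L.reach_leaf (F := F) (b := (L.lab v).1) (l := (L.lab v).2) (L.val v)
      (hleaf _ _ (L.val v))
    have h3 : L.vx ((L.lab v).1, (L.lab v).2) = v := L.vx_lab v
    rwa [h3] at h2
  refine SimpleGraph.Reachable.trans h1.symm ?_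
  have hval := L.val v
  obtain ⟨⟨⟨e, t⟩, l⟩, hve⟩ : ∃ a, L.lab v = a := ⟨_, rfl⟩
  rw [hve] at hv hval ⊢
  obtain ⟨h2, h3, h4⟩ := hval
  simp only at h2 h3 h4 hv ⊢
  rcases h2 with h2 | h2
  · rw [Shape.side_hub h2] at hv
    have h5 := S.len_hub e h2
    have h6 : t = 0 := by omega
    subst h6
    rw [hv.2]
  · rw [Shape.side_link h2] at hv
    have h5 := hv.2
    have h6 : L.vx ((e, t), 0) = L.vx (S.pos e (t + 1)) := by rw [Shape.pos_succ h3]
    rw [h6]
    split_ifs at h5 with h7
    · subst h5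
      have h8 := L.reach (F := F) h2 (a := 0) (b := t + 1) (by omega) (by omega) ?_
      · rw [Shape.pos_zero] at h8
        exact h8.symm
      · intro p _ hp hpF
        have := hmem e h2 p (by omega) hpF
        omega
    · subst h5
      have h8 := L.reach (F := F) h2 (a := t + 1) (b := S.len e + 1) (by omega) (by omega) ?_
      · rw [Shape.pos_last] at h8
        exact h8
      · intro p hp _ hpF
        have := hmem e h2 p (by omega) hpF
        omega

end Lay

end Pool.Agent.R550.TE
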