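import Pool.Agent.R550.TE.Grid
import Pool.Agent.R550.TE.Defs
import Pool.Agent.R550.W1.Clique

/-!
# `T_{h+1}`-Free Edge Deletion is W[1]-hard
-/

namespace Pool.Agent.R550.TE

open Pool.Agent.NPC Pool.Agent.H557R2.Fpt Pool.Agent.R550.W1

/-- the labels -/
abbrev Lb : Type := (El × ℕ) × ℕ

/-- the sizes of the stars, extended by zero -/
def szv (n k : ℕ) (x : List Bool) (b : El × ℕ) : ℕ :=
  if b.2 < len n b.1 then sz n k x b.1 b.2 else 0

/-- the list of the stars -/
def stars (n k : ℕ) : List (El × ℕ) :=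
  List.product (List.product (List.range 5) (List.product (List.range k) (List.range k)))
    (List.range (mx n + 2))

/-- the list of the labels -/
def lbs (n k : ℕ) (x : List Bool) : List Lb := blk (stars n k) (szv n k x)

theorem len_le (n : ℕ) (e : El) : len n e ≤ mx n + 2 := by
  have : n + 1 ≤ mx n := by
    unfold mx
    nlinarith
  unfold len
  split_ifs <;> omega

theorem mem_lbs {n k : ℕ} {x : List Bool} {a : Lb} : a ∈ lbs n k x ↔ (shape n k x).Val a := by
  obtain ⟨⟨⟨c, i, j⟩, t⟩, l⟩ := a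
  unfold lbs stars
  rw [mem_blk]
  have h0 : (((c, i, j), t) : El × ℕ) ∈ List.product (List.product (List.range 5)
      (List.product (List.range k) (List.range k))) (List.range (mx n + 2)) ↔
      (c < 5 ∧ i < k ∧ j < k) ∧ t < mx n + 2 := by
    rw [DS.mem_prd, DS.mem_prd, DS.mem_prd, List.mem_range, List.mem_range, List.mem_range,
      List.mem_range]
  simp only
  rw [h0]
  have h1 := len_le n (c, i, j)
  unfold Shape.Val szv
  show _ ↔ ((c, i, j) ∈ HS k ∨ (c, i, j) ∈ LS k) ∧ t < len n (c, i, j) ∧ l < sz n k x (c, i, j) t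
  rw [mem_HS, mem_LS]
  simp only
  constructor
  · rintro ⟨⟨⟨h2, h3, h4⟩, h5⟩, h6⟩
    split_ifs at h6 with h7
    · exact ⟨by omega, h7, h6⟩
    · omega
  · rintro ⟨h2, h3, h4⟩
    rw [if_pos h3]
    exact ⟨⟨by omega, by omega⟩, h4⟩

theorem nodup_lbs (n k : ℕ) (x : List Bool) : (lbs n k x).Nodup :=
  nodup_blk ((List.nodup_range.product (List.nodup_range.product List.nodup_range)).product
    List.nodup_range) _

/-- the adjacency test -/
def Tb (n k : ℕ) (a b : Lb) : Bool :=
  decide (a.2 = 0) && ((decide (a.1 = b.1) && !decide (b.2 = 0)) ||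
    (decide (b.2 = 0) && ((decide (a.1.1 = b.1.1) && decide (b.1.2 = a.1.2 + 1)) ||
      ((decide (b.1.1.1 < 3) && (decide (b.1.2 = 0) && decide (a.1.1 = src b.1.1))) ||
      (decide (b.1.1.1 < 3) && (decide (b.1.2 + 1 = len n b.1.1) &&
        decide (a.1.1 = dst k b.1.1)))))))

theorem Tb_iff {n k : ℕ} {x : List Bool} {a b : Lb} (hb : (shape n k x).Val b) :
    Tb n k a b = true ↔ (shape n k x).T a b := by
  have h1 : b.1.1 ∈ (shape n k x).Ls ↔ b.1.1.1 < 3 := by
    have h2 : b.1.1 ∈ HS k ∨ b.1.1 ∈ LS k := hb.1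
    show b.1.1 ∈ LS k ↔ _
    rw [mem_HS, mem_LS] at h2
    rw [mem_LS]
    constructor
    · intro h; exact h.1
    · intro h
      rcases h2 with h2 | h2
      · omega
      · exact h2
  unfold Tb Shape.T
  rw [h1]
  simp only [Bool.and_eq_true, Bool.or_eq_true, decide_eq_true_eq, Bool.not_eq_true',
    decide_eq_false_iff_not]
  rfl

/-- The graph of the reduction. -/
def gA (n k : ℕ) (x : List Bool) : List (List ℕ) := mkG (lbs n k x) (Tb n k)

/-- The graph of the reduction has the right shape. -/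
theorem exists_lay {n k : ℕ} (hk : 0 < k) (x : List Bool) :
    Nonempty (Lay (GB.graph (gA n k x)) (shape n k x)) := by
  classical
  obtain ⟨lab, hinj, hmem, hsur, hadj⟩ := mkG_lab (lbs n k x) (nodup_lbs n k x) (Tb n k)
  have h0 : (((3, 0, 0), 0), 0) ∈ lbs n k x := by
    rw [mem_lbs]
    refine ⟨Or.inl (mem_HS.2 ⟨le_rfl, by norm_num, hk, hk⟩), ?_, ?_⟩
    · show 0 < len n (3, 0, 0)
      unfold len
      simp
    · show 0 < sz n k x (3, 0, 0) 0
      unfold sz zP
      simp
  obtain ⟨v0, -⟩ := hsur _ h0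
  let vx : Lb → Fin (mkG (lbs n k x) (Tb n k)).length := fun a =>
    if h : a ∈ lbs n k x then (hsur a h).choose else v0
  have hvx : ∀ a, (shape n k x).Val a → lab (vx a) = a := by
    intro a ha
    have ha' := mem_lbs.2 ha
    have : vx a = (hsur a ha').choose := by
      simp only [vx, dif_pos ha']
    rw [this]
    exact (hsur a ha').choose_spec
  refine ⟨⟨lab, vx, hinj, fun v => mem_lbs.1 (hmem v), hvx, ?_⟩⟩
  intro u v
  show (GB.graph (mkG (lbs n k x) (Tb n k))).Adj u v ↔ _
  rw [hadj, Tb_iff (mem_lbs.1 (hmem v)), Tb_iff (mem_lbs.1 (hmem u))]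
  exact Iff.rfl

theorem hbig (n k : ℕ) (x : List Bool) : ∀ e ∈ (shape n k x).Ls,
    hh n k + (shape n k x).Ls.card < (shape n k x).sz ((shape n k x).src e) 0 +
      (shape n k x).sz ((shape n k x).dst e) 0 := by
  intro e _
  show hh n k + (LS k).card < sz n k x (src e) 0 + sz n k x (dst k e) 0
  rw [card_LS]
  have h1 : sz n k x (src e) 0 = zP n k := rfl
  have h2 : sz n k x (dst k e) 0 = zQ n k := by
    unfold dst
    split_ifs <;> rfl
  rw [h1, h2]
  unfold hh zP zQ
  omega

/-- **Correctness.** -/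
theorem correct {n k : ℕ} (hk : 0 < k) (x : List Bool) : ¬ (bitGraph n x).CliqueFree k ↔
    ∃ F : Finset (Sym2 (Fin (gA n k x).length)),
      (F : Set (Sym2 (Fin (gA n k x).length))) ⊆ (GB.graph (gA n k x)).edgeSet ∧
      F.card ≤ Kk k ∧ ∀ C : ((GB.graph (gA n k x)).deleteEdges F).ConnectedComponent,
        C.supp.ncard ≤ hh n k := by
  obtain ⟨L⟩ := exists_lay (n := n) hk x
  rw [clique_iff]
  constructor
  · rintro ⟨f, hf, hal⟩
    obtain ⟨q, hq, hl⟩ := cut_of_clique hf hal
    obtain ⟨F, hF1, hF2, hF3⟩ := L.small_of_load hq hl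
    have h1 : (shape n k x).Ls.card = Kk k := card_LS k
    rw [h1] at hF2
    exact ⟨F, hF1, hF2, hF3⟩
  · rintro ⟨F, -, hF2, hF3⟩
    have h1 : (shape n k x).Ls.card = Kk k := card_LS k
    rw [← h1] at hF2
    obtain ⟨q, hq, hl⟩ := L.load_of_small hF2 hF3 (hbig n k x)
    exact clique_of_cut hq hl

/-! ### Polynomial time -/

section

variable {α : Type} [TEnc α]

theorem poly_F {n i j t : α → ℕ} {x : α → List Bool} (hn : NPC.Poly n) (hx : NPC.Poly x)
    (hi : NPC.Poly i) (hj : NPC.Poly j) (ht : NPC.Poly t) :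
    NPC.Poly (fun a => F (n a) (x a) (i a) (j a) (t a)) := by
  have h1 : NPC.Poly (fun a => ok (n a) (x a) (i a) (j a) (t a - 1)) := by
    unfold ok mx
    have h2 : NPC.Poly (fun a => (t a - 1) % (n a + 2)) :=
      NPC.Poly.mod (by fun_prop) (by fun_prop)
    have h3 : NPC.Poly (fun a => (t a - 1) / (n a + 2)) :=
      NPC.Poly.div (by fun_prop) (by fun_prop)
    have h4 := DS.poly_alw hn hx hi hj h2 h3
    fun_prop
  unfold F
  fun_prop

theorem poly_len {n : α → ℕ} {e : α → El} (hn : NPC.Poly n) (he : NPC.Poly e) :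
    NPC.Poly (fun a => len (n a) (e a)) := by
  unfold len mx
  fun_prop

theorem poly_dst {k : α → ℕ} {e : α → El} (hk : NPC.Poly k) (he : NPC.Poly e) :
    NPC.Poly (fun a => dst (k a) (e a)) := by
  unfold dst up
  fun_prop

theorem poly_src {e : α → El} (he : NPC.Poly e) : NPC.Poly (fun a => src (e a)) := by
  unfold src
  fun_prop

theorem poly_sz {n k : α → ℕ} {x : α → List Bool} {e : α → El} {t : α → ℕ} (hn : NPC.Poly n)
    (hk : NPC.Poly k) (hx : NPC.Poly x) (he : NPC.Poly e) (ht : NPC.Poly t) :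
    NPC.Poly (fun a => sz (n a) (k a) (x a) (e a) (t a)) := by
  have h1 := poly_F (i := fun a => (e a).2.1) (j := fun a => (e a).2.2) (t := fun a => t a + 1)
    hn hx (by fun_prop) (by fun_prop) (by fun_prop)
  have h2 := poly_F (i := fun a => (e a).2.1) (j := fun a => (e a).2.2) (t := t)
    hn hx (by fun_prop) (by fun_prop) ht
  unfold sz zP zQ mx Kk
  fun_prop

theorem poly_szv {n k : α → ℕ} {x : α → List Bool} {b : α → El × ℕ} (hn : NPC.Poly n)
    (hk : NPC.Poly k) (hx : NPC.Poly x) (hb : NPC.Poly b) :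
    NPC.Poly (fun a => szv (n a) (k a) (x a) (b a)) := by
  have h1 := poly_sz (e := fun a => (b a).1) (t := fun a => (b a).2) hn hk hx (by fun_prop)
    (by fun_prop)
  have h2 := poly_len (e := fun a => (b a).1) hn (by fun_prop)
  unfold szv
  fun_prop

theorem poly_Tb {n k : α → ℕ} {a b : α → Lb} (hn : NPC.Poly n) (hk : NPC.Poly k)
    (ha : NPC.Poly a) (hb : NPC.Poly b) : NPC.Poly (fun t => Tb (n t) (k t) (a t) (b t)) := by
  have h1 := poly_src (e := fun t => (b t).1.1) (by fun_prop)
  have h2 := poly_dst (k := k) (e := fun t => (b t).1.1) hk (by fun_prop)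
  have h3 := poly_len (e := fun t => (b t).1.1) hn (by fun_prop)
  unfold Tb
  fun_prop

end

theorem szv_le (n k : ℕ) (x : List Bool) (b : El × ℕ) :
    szv n k x b ≤ zP n k + zQ n k + 3 * (n + 2) + 4 := by
  unfold szv sz
  have : F n x b.1.2.1 b.1.2.2 (b.2 + 1) - F n x b.1.2.1 b.1.2.2 b.2 ≤ 4 := by
    unfold F
    rw [if_neg (show ¬ b.2 + 1 = 0 by omega), Nat.add_sub_cancel]
    by_cases h0 : b.2 = 0
    · rw [if_pos h0]
      split_ifs <;> omega
    · rw [if_neg h0]
      split_ifs <;> omega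
  split_ifs <;> omega

/-- The reduction. -/
def red' (p : Inp) : List (List ℕ) × ℕ :=
  (gA p.1.length p.2.2.length p.2.1, hh p.1.length p.2.2.length)

/-- The new parameter. -/
def gg (k : ℕ) : ℕ := max 1 (3 * (k * k))

theorem uk : UPoly (fun p : Inp => p.2.2.length) := UPoly.length (by fun_prop)

theorem un : UPoly (fun p : Inp => p.1.length) := UPoly.length (by fun_prop)

theorem poly_stars : NPC.Poly (fun p : Inp => stars p.1.length p.2.2.length) := by
  unfold stars mx
  exact poly_product (poly_product (UPoly.const 5).range (poly_product uk.range uk.range))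
    (UPoly.range (UPoly.add (UPoly.mul (UPoly.add un (UPoly.const 1))
      (UPoly.add un (UPoly.const 3))) (UPoly.const 2)))

theorem poly_lbs : NPC.Poly (fun p : Inp => lbs p.1.length p.2.2.length p.2.1) := by
  unfold lbs
  refine poly_blk (cnt := fun (p : Inp) b => szv p.1.length p.2.2.length p.2.1 b) poly_stars ?_
  have hk : UPoly (fun p : Inp × (El × ℕ) => p.1.2.2.length) := UPoly.length (by fun_prop)
  have hn : UPoly (fun p : Inp × (El × ℕ) => p.1.1.length) := UPoly.length (by fun_prop)
  refine UPoly.of_le (n := fun p : Inp × (El × ℕ) => zP p.1.1.length p.1.2.2.length +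
    zQ p.1.1.length p.1.2.2.length + 3 * (p.1.1.length + 2) + 4)
    (poly_szv hn.toPoly hk.toPoly (by fun_prop) (by fun_prop)) ?_ (fun p => szv_le _ _ _ _)
  unfold zP zQ mx Kk
  have h1 : UPoly (fun p : Inp × (El × ℕ) => (p.1.1.length + 1) * (p.1.1.length + 3)) :=
    UPoly.mul (UPoly.add hn (UPoly.const 1)) (UPoly.add hn (UPoly.const 3))
  have h2 : UPoly (fun p : Inp × (El × ℕ) => 3 * (p.1.2.2.length * p.1.2.2.length)) :=
    UPoly.mul (UPoly.const 3) (UPoly.mul hk hk)
  exact UPoly.add (UPoly.add (UPoly.add (UPoly.add (UPoly.add (UPoly.mul (UPoly.const 3)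
    (UPoly.add h1 (UPoly.const 1))) h2) (UPoly.const 1)) (UPoly.add (UPoly.add (UPoly.add
    (UPoly.mul (UPoly.const 3) h1) (UPoly.const 1)) h2) (UPoly.const 1)))
    (UPoly.mul (UPoly.const 3) (UPoly.add hn (UPoly.const 2)))) (UPoly.const 4)

theorem poly_red' : NPC.Poly red' := by
  unfold red' gA
  refine NPC.Poly.pair ?_ ?_
  · refine poly_mkG (t := fun (p : Inp) a b => Tb p.1.length p.2.2.length a b) poly_lbs ?_
    exact poly_Tb (UPoly.length (by fun_prop)).toPoly (UPoly.length (by fun_prop)).toPoly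
      (by fun_prop) (by fun_prop)
  · have h1 := un.toPoly
    have h2 := uk.toPoly
    unfold hh mx Kk
    fun_prop

/-- The property defining the problem. -/
def PP (b : List (List ℕ) × ℕ) (k : ℕ) : Prop :=
  1 ≤ b.2 ∧ 1 ≤ k ∧ ∃ F : Finset (Sym2 (Fin b.1.length)),
    (F : Set (Sym2 (Fin b.1.length))) ⊆ (GB.graph b.1).edgeSet ∧ F.card ≤ k ∧
      ∀ C : ((GB.graph b.1).deleteEdges F).ConnectedComponent, C.supp.ncard ≤ b.2

theorem prob_eq : prob PP = treeFreeEdgeDeletion := by
  ext y
  constructor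
  · rintro ⟨⟨A, h⟩, h1, h2, h3, h4⟩
    exact ⟨A, h, h2, h3, h1, h4⟩
  · rintro ⟨A, h, h2, h3, h1, h4⟩
    exact ⟨(A, h), h1, h2, h3, h4⟩

theorem correct' (n k : ℕ) (x : List Bool) :
    ¬ (bitGraph n x).CliqueFree k ↔ PP (gA n k x, hh n k) (gg k) := by
  have h1 : 1 ≤ hh n k := by
    unfold hh
    omega
  rcases Nat.eq_zero_or_pos k with rfl | hk
  · constructor
    · intro _
      refine ⟨h1, by simp [gg], ∅, by simp, by simp, fun C => ?_⟩
      -- there are no vertices
      have h2 : lbs n 0 x = [] := by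
        rw [List.eq_nil_iff_forall_not_mem]
        intro a ha
        rw [mem_lbs] at ha
        rcases ha.1 with h3 | h3
        · have := (mem_HS.1 h3).2.2.1
          omega
        · have := (mem_LS.1 h3).2.1
          omega
      induction C using SimpleGraph.ConnectedComponent.ind with
      | _ v =>
      have h3 : (gA n 0 x).length = 0 := by
        unfold gA
        rw [mkG_length, h2]
        rfl
      exact absurd v.2 (by simp only; omega)
    · intro _ h
      exact h ∅ (by simp [SimpleGraph.isNClique_iff])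
  · rw [correct hk]
    have h2 : gg k = Kk k := by
      unfold gg Kk
      refine max_eq_right ?_
      nlinarith
    unfold PP
    rw [h2]
    constructor
    · intro h
      exact ⟨h1, by rw [← h2]; exact le_max_left _ _, h⟩
    · rintro ⟨-, -, h⟩
      exact h

/-- **`T_{h+1}`-Free Edge Deletion is `W[1]`-hard.** -/
theorem w1Hard : W1Hard treeFreeEdgeDeletion := by
  rw [← prob_eq]
  refine w1Hard_prob poly_red' (g := gg) ?_ ?_ ?_ ?_
  · have h : UPoly (fun l : List Unit => l.length) := UPoly.length NPC.Poly.id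
    have h2 : UPoly (fun l : List Unit => 3 * (l.length * l.length)) :=
      UPoly.mul (UPoly.const 3) (UPoly.mul h h)
    refine UPoly.of_le (n := fun l : List Unit => 1 + 3 * (l.length * l.length)) ?_
      (UPoly.add (UPoly.const 1) h2) ?_
    · exact NPC.Poly.max (NPC.Poly.const 1) h2.toPoly
    · intro l
      unfold gg
      omega
  · have h1 : Computable (fun k : ℕ => 3 * (k * k)) :=
      computable_mul (Computable.const 3) (computable_mul Computable.id Computable.id)
    exact (Primrec.nat_max.to_comp).comp (Computable.const 1) h1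
  · intro a b h
    unfold gg
    exact max_le_max le_rfl (Nat.mul_le_mul_left 3 (Nat.mul_le_mul h h))
  · intro n k x _
    rw [correct']
    have e : red' (List.replicate n (), x, List.replicate k ()) = (gA n k x, hh n k) := by
      unfold red'
      simp only [List.length_replicate]
    rw [e]

end Pool.Agent.R550.TE
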